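import Mathlib

set_option autoImplicit false

/-!
# A balanced tripartite graph with few triangles

`3 x 10` vertices, minimum degree `12`, exactly `30 < 4 * 2 ^ 3` triangles, and its blow-ups.
-/

namespace Pool.Agent.R522.TP

/-- The rows of the adjacency matrix, as binary numbers; the vertex `(c, i)` has number `10 c + i`. -/
def rows : List ℕ := [1072889856, 1053008896, 1053008896, 1053008896, 1053008896, 403700736, 1053008896, 1072735232, 403700736, 403700736, 19923966, 938476320, 938476320, 19923966, 804258592, 19923966, 19923839, 19923839, 804258592, 938476320, 1047681, 1047681, 809183, 809183, 1047681, 809183, 809183, 279551, 531455, 809183]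

/-- adjacency in the base graph -/
def adj (u v : Fin 3 × Fin 10) : Bool :=
  (rows.getD (10 * u.1.val + u.2.val) 0).testBit (10 * v.1.val + v.2.val)

theorem adj_symm : ∀ u v : Fin 3 × Fin 10, adj u v = adj v u := by decide +kernel

theorem adj_class : ∀ u v : Fin 3 × Fin 10, adj u v = true → u.1 ≠ v.1 := by decide +kernel

theorem adj_deg : ∀ u : Fin 3 × Fin 10, 12 ≤ (Finset.univ.filter fun v => adj u v = true).card := by
  decide +kernel

/-- the triangles of the base graph -/
def tri : Finset (Fin 10 × Fin 10 × Fin 10) :=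
  Finset.univ.filter fun x => adj (0, x.1) (1, x.2.1) = true ∧ adj (0, x.1) (2, x.2.2) = true ∧
    adj (1, x.2.1) (2, x.2.2) = true

theorem tri_card : tri.card = 30 := by decide +kernel

/-- the index of a vertex in the base graph -/
def idx (k : ℕ) (x : Fin (10 * k)) : Fin 10 := (finProdFinEquiv.symm x).1

/-- the blow-up: every vertex is replaced by `k` vertices -/
def blow (k : ℕ) : SimpleGraph (Fin 3 × Fin (10 * k)) where
  Adj u v := adj (u.1, idx k u.2) (v.1, idx k v.2) = true
  symm := ⟨fun u v h => by rw [adj_symm]; exact h⟩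
  loopless := ⟨fun u h => adj_class _ _ h rfl⟩

theorem blow_class (k : ℕ) (u v : Fin 3 × Fin (10 * k)) (h : (blow k).Adj u v) : u.1 ≠ v.1 :=
  adj_class _ _ h

theorem blow_deg (k : ℕ) (u : Fin 3 × Fin (10 * k)) :
    12 * k ≤ ((blow k).neighborSet u).ncard := by
  classical
  set S : Finset (Fin 3 × Fin 10) := Finset.univ.filter fun v => adj (u.1, idx k u.2) v = true with hS
  let f : (Fin 3 × Fin 10) × Fin k → Fin 3 × Fin (10 * k) := fun p => (p.1.1, finProdFinEquiv (p.1.2, p.2))
  have hf : Function.Injective f := by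
    rintro ⟨⟨a, b⟩, c⟩ ⟨⟨a', b'⟩, c'⟩ h
    simp only [f, Prod.mk.injEq] at h
    obtain ⟨h1, h2⟩ := h
    have h3 := finProdFinEquiv.injective h2
    simp only [Prod.mk.injEq] at h3
    simp [h1, h3.1, h3.2]
  have hsub : (((S ×ˢ (Finset.univ : Finset (Fin k))).image f : Finset _) : Set (Fin 3 × Fin (10 * k))) ⊆
      (blow k).neighborSet u := by
    intro v hv
    rw [Finset.mem_coe, Finset.mem_image] at hv
    obtain ⟨⟨⟨a, b⟩, c⟩, h1, rfl⟩ := hv
    rw [Finset.mem_product, hS, Finset.mem_filter] at h1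
    show adj (u.1, idx k u.2) ((f ((a, b), c)).1, idx k (f ((a, b), c)).2) = true
    have e : idx k (f ((a, b), c)).2 = b := by
      simp only [f, idx, Equiv.symm_apply_apply]
    rw [e]
    exact h1.1.2
  have h := Set.ncard_le_ncard hsub (Set.toFinite _)
  rw [Set.ncard_coe_finset, Finset.card_image_of_injective _ hf, Finset.card_product, Finset.card_univ,
    Fintype.card_fin] at h
  exact (Nat.mul_le_mul_right k (adj_deg _)).trans h

theorem blow_tri (k : ℕ) :
    {s : Finset (Fin 3 × Fin (10 * k)) | (blow k).IsNClique 3 s}.ncard ≤ 30 * k ^ 3 := by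
  classical
  let g : (Fin 10 × Fin 10 × Fin 10) × (Fin k × Fin k × Fin k) → Finset (Fin 3 × Fin (10 * k)) :=
    fun p => {(0, finProdFinEquiv (p.1.1, p.2.1)), (1, finProdFinEquiv (p.1.2.1, p.2.2.1)),
      (2, finProdFinEquiv (p.1.2.2, p.2.2.2))}
  have key : ∀ x y z : Fin 3 × Fin (10 * k), x.1 = 0 → y.1 = 1 → z.1 = 2 →
      (blow k).Adj x y → (blow k).Adj x z → (blow k).Adj y z →
      ({x, y, z} : Finset (Fin 3 × Fin (10 * k))) ∈
        (tri ×ˢ (Finset.univ : Finset (Fin k × Fin k × Fin k))).image g := by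
    rintro ⟨x1, x2⟩ ⟨y1, y2⟩ ⟨z1, z2⟩ hx hy hz h1 h2 h3
    simp only at hx hy hz
    subst hx hy hz
    rw [Finset.mem_image]
    refine ⟨((idx k x2, idx k y2, idx k z2), ((finProdFinEquiv.symm x2).2, (finProdFinEquiv.symm y2).2,
      (finProdFinEquiv.symm z2).2)), ?_, ?_⟩
    · rw [Finset.mem_product]
      refine ⟨?_, Finset.mem_univ _⟩
      rw [tri, Finset.mem_filter]
      exact ⟨Finset.mem_univ _, h1, h2, h3⟩
    · simp only [g, idx, Prod.mk.eta, Equiv.apply_symm_apply]
  have hsub : {s : Finset (Fin 3 × Fin (10 * k)) | (blow k).IsNClique 3 s} ⊆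
      (((tri ×ˢ (Finset.univ : Finset (Fin k × Fin k × Fin k))).image g : Finset _) :
        Set (Finset (Fin 3 × Fin (10 * k)))) := by
    intro s hs
    rw [Set.mem_ofPred_eq, SimpleGraph.is3Clique_iff] at hs
    obtain ⟨x, y, z, hxy, hxz, hyz, rfl⟩ := hs
    rw [Finset.mem_coe]
    have c1 := blow_class k x y hxy
    have c2 := blow_class k x z hxz
    have c3 := blow_class k y z hyz
    have hcase : ∀ a b c : Fin 3, a ≠ b → a ≠ c → b ≠ c →
        (a = 0 ∧ b = 1 ∧ c = 2) ∨ (a = 0 ∧ b = 2 ∧ c = 1) ∨ (a = 1 ∧ b = 0 ∧ c = 2) ∨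
        (a = 1 ∧ b = 2 ∧ c = 0) ∨ (a = 2 ∧ b = 0 ∧ c = 1) ∨ (a = 2 ∧ b = 1 ∧ c = 0) := by decide
    rcases hcase _ _ _ c1 c2 c3 with ⟨h1, h2, h3⟩ | ⟨h1, h2, h3⟩ | ⟨h1, h2, h3⟩ | ⟨h1, h2, h3⟩ |
      ⟨h1, h2, h3⟩ | ⟨h1, h2, h3⟩
    · exact key x y z h1 h2 h3 hxy hxz hyz
    · have e : ({x, y, z} : Finset (Fin 3 × Fin (10 * k))) = {x, z, y} := by ext w; simp; tauto
      rw [e]
      exact key x z y h1 h3 h2 hxz hxy hyz.symm
    · have e : ({x, y, z} : Finset (Fin 3 × Fin (10 * k))) = {y, x, z} := by ext w; simp; tauto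
      rw [e]
      exact key y x z h2 h1 h3 hxy.symm hyz hxz
    · have e : ({x, y, z} : Finset (Fin 3 × Fin (10 * k))) = {z, x, y} := by ext w; simp; tauto
      rw [e]
      exact key z x y h3 h1 h2 hxz.symm hyz.symm hxy
    · have e : ({x, y, z} : Finset (Fin 3 × Fin (10 * k))) = {y, z, x} := by ext w; simp; tauto
      rw [e]
      exact key y z x h2 h3 h1 hyz hxy.symm hxz.symm
    · have e : ({x, y, z} : Finset (Fin 3 × Fin (10 * k))) = {z, y, x} := by ext w; simp; tauto
      rw [e]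
      exact key z y x h3 h2 h1 hyz.symm hxz.symm hxy.symm
  have h := Set.ncard_le_ncard hsub (Finset.finite_toSet _)
  rw [Set.ncard_coe_finset] at h
  refine h.trans (Finset.card_image_le.trans ?_)
  rw [Finset.card_product, tri_card]
  simp [Finset.card_univ, Fintype.card_prod, Fintype.card_fin, pow_succ, mul_assoc]

end Pool.Agent.R522.TP
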